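import Pool.Agent.R201.UK.Asm3
import Pool.Agent.R201.UK.SAreaP
import Pool.Agent.R201.UK.SEvalP
import Pool.Agent.R201.UK.SOpP
import Pool.Agent.R201.UK.SPnP
import Pool.Agent.R201.UK.SSumP
import Pool.Agent.R201.UK.SWallP
import Pool.Agent.R201.UK.SBoxP
import Pool.Agent.R201.UK.SDomP
import Pool.Agent.R201.UK.SDiscP
import Pool.Agent.R201.UK.SLogP
import Pool.Agent.R201.UK.SCovP
import Pool.Agent.R201.UK.SLowP

/-! # A uniformly Kreiss bounded multiplication operator on the Dirichlet space that is not
power bounded (MP_f04e08_an, Q1)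

There is a multiplier `φ` of the Dirichlet space `D₀` such that `M_φ` is uniformly Kreiss
bounded but not power bounded. -/

set_option autoImplicit false

open Set Metric MeasureTheory

namespace Pool.Agent.Results.MP_f04e08_an.UKBNotPB

open Pool.Agent.R201.UK

/-- There is a multiplier `φ` of the Dirichlet space whose multiplication operator is uniformly
Kreiss bounded and not power bounded. -/
theorem result : ∃ φ : ℂ → ℂ, IsMultiplier φ ∧ UKB φ ∧ ¬ PB φ :=
  main sArea (sOp sArea sEval) sPn sSum sWall sBox (sDom sBox) (sLog sDisc (sSeg sDisc)) sCov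
    sLow

end Pool.Agent.Results.MP_f04e08_an.UKBNotPB
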